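import Pool.Agent.MP_3ee8cb_gt.CYG.Spec
import Pool.Agent.MP_3ee8cb_gt.CY.Sgl
import Pool.Agent.MP_3ee8cb_gt.DNA.Hom
import Pool.Agent.MP_3ee8cb_gt.DN.One

/-! The fibre inequality for a front that is differentiable almost everywhere. -/

namespace Pool.Agent.MP_3ee8cb_gt.CYG

open DN DF Set MeasureTheory Filter Topology
open DNA (ne0)
open scoped ENNReal NNReal

variable [Dim] {K k : ℝ} {t τ : V → ℝ} {ξ X F G : V → V} {A B : V → V →L[ℝ] V} {Gs : Set V}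

theorem DatZ.small (h : DatZ K k t τ ξ X F G A B Gs) (k0 : 0 ≤ k) (k1 : k ≤ 1 / 12) {v : V}
    (hv : ‖v‖ = 1) : 0 ≤ k * ‖F v‖ ∧ k * ‖F v‖ ≤ 1 / 8 :=
  ⟨by positivity, (mul_le_mul k1 (h.pt v hv).2.1 (norm_nonneg _) (by norm_num)).trans
    (by norm_num)⟩

theorem DatZ.pull (h : DatZ K k t τ ξ X F G A B Gs) (k0 : 0 ≤ k) (k1 : k ≤ 1 / 12) {v : V}
    (g : v ∈ Gs) (hv : ‖v‖ = 1) : |τ (‖ξ v‖⁻¹ • ξ v)| ≤ ‖fderiv ℝ τ (‖ξ v‖⁻¹ • ξ v)‖ ∧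
      G (‖ξ v‖⁻¹ • ξ v) = F v ∧ √(1 - τ (‖ξ v‖⁻¹ • ξ v) ^ 2) = ‖ξ v‖⁻¹ ∧ ∀ e,
        fderiv ℝ τ (‖ξ v‖⁻¹ • ξ v) (fderiv ℝ ξ v e) = fderiv ℝ t v e ∧
        fderiv ℝ G (‖ξ v‖⁻¹ • ξ v) (fderiv ℝ ξ v e) = ‖ξ v‖ • fderiv ℝ F v e := by
  obtain ⟨dξ, dt, dF, dA, bB⟩ := h.gd v g hv
  obtain ⟨h0, lX⟩ := h.lX v (ne0 hv)
  have hp := norm_pos_iff.2 h0
  have h1 : ‖ξ v‖⁻¹ ≠ 0 := inv_ne_zero hp.ne'
  have hd : (fderiv ℝ ξ v).det ≠ 0 := DNA.det_ne_zero _ fun e he => DNA.inj_of_det _ dA e (by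
    have e1 := (h.der v g hv e).2.2.2
    have e2 : ‖B v (A v e)‖ ≤ ‖A v e‖ :=
      ((B v).le_opNorm _).trans (mul_le_of_le_one_left (norm_nonneg _) bB)
    obtain ⟨s0, s1⟩ := h.small k0 k1 hv
    have e3 := mul_le_mul (mul_le_mul_of_nonneg_right s1 (norm_nonneg (A v e))) e2 (norm_nonneg _)
      (by positivity)
    rw [he, norm_zero] at e1
    exact norm_eq_zero.1 (by nlinarith [norm_nonneg (A v e), sq_nonneg (fderiv ℝ t v e)]))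
  have nb : ∀ᶠ y in 𝓝 (ξ v), y ≠ 0 := isOpen_ne.mem_nhds h0
  obtain ⟨Q, hQ⟩ : ∃ Q : V ≃L[ℝ] V, (Q : V →L[ℝ] V) = fderiv ℝ ξ v :=
    ⟨_, (fderiv ℝ ξ v).coe_toContinuousLinearEquivOfDetNeZero hd⟩
  have dX : HasFDerivAt X (Q.symm : V →L[ℝ] V) (ξ v) :=
    HasFDerivAt.of_local_left_inverse (h.cX.continuousAt nb) (by
      rw [lX, hQ]; exact dξ.hasFDerivAt) (nb.mono h.rX)
  have dτ : HasFDerivAt τ ((fderiv ℝ t v).comp (Q.symm : V →L[ℝ] V)) (ξ v) :=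
    (HasFDerivAt.comp (ξ v) (by rw [lX]; exact dt.hasFDerivAt) dX).congr_of_eventuallyEq
      (nb.mono h.eτ)
  have dG : HasFDerivAt G ((fderiv ℝ F v).comp (Q.symm : V →L[ℝ] V)) (ξ v) :=
    (HasFDerivAt.comp (ξ v) (by rw [lX]; exact dF.hasFDerivAt) dX).congr_of_eventuallyEq
      (nb.mono h.eG)
  have eτ : fderiv ℝ τ (‖ξ v‖⁻¹ • ξ v) = fderiv ℝ τ (ξ v) := CY.fd_hom h.hτ _ h1
  have u0 : ‖ξ v‖⁻¹ • ξ v ≠ 0 := smul_ne_zero h1 h0
  have dG' : HasFDerivAt G (((fderiv ℝ F v).comp (Q.symm : V →L[ℝ] V)).comp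
      (‖ξ v‖ • ContinuousLinearMap.id ℝ V)) (‖ξ v‖⁻¹ • ξ v) := by
    refine (HasFDerivAt.comp (g := G) (f := fun x : V => ‖ξ v‖ • x) _ (by
      rw [smul_inv_smul₀ hp.ne']; exact dG)
      ((hasFDerivAt_id _).const_smul ‖ξ v‖)).congr_of_eventuallyEq ?_
    filter_upwards [isOpen_ne.mem_nhds u0] with x hx using (h.hG _ x hp.ne' hx).symm
  have e1 : τ (ξ v) = t v := by rw [h.eτ _ h0, lX]
  have h2 : 1 - τ (‖ξ v‖⁻¹ • ξ v) ^ 2 = ‖ξ v‖⁻¹ ^ 2 := by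
    have h3 := (h.pt v hv).1
    rw [h.hτ, e1]
    field_simp
    linarith
  refine ⟨?_, ?_, ?_, fun e => ⟨?_, ?_⟩⟩
  · have e : fderiv ℝ τ (ξ v) (ξ v) = τ (ξ v) := DNA.radial dτ.differentiableAt.hasFDerivAt
      (g := fun r => r * τ (ξ v)) (by simpa using (hasDerivAt_id (1 : ℝ)).mul_const (τ (ξ v)))
      fun r _ => h.hτ r _
    have := (fderiv ℝ τ (ξ v)).le_opNorm (ξ v)
    rw [e, Real.norm_eq_abs] at this
    rw [eτ, h.hτ, abs_mul, abs_of_pos (inv_pos.2 hp), inv_mul_le_iff₀ hp, mul_comm]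
    exact this
  · rw [h.hG _ _ h1 h0, h.eG _ h0, lX]
  · rw [h2, Real.sqrt_sq (inv_nonneg.2 hp.le)]
  · rw [eτ, dτ.fderiv, ← hQ]
    simp
  · rw [dG'.fderiv, ← hQ]
    simp

theorem DatZ.alg (al : SALG) (h : DatZ K k t τ ξ X F G A B Gs) (hK : 1 ≤ K) (k0 : 0 ≤ k)
    (k1 : k ≤ 1 / 12) {v : V} (g : v ∈ Gs) (hv : ‖v‖ = 1) :
    nu A B v ≤ |(fderiv ℝ ξ v).det| * √(1 - ‖fderiv ℝ τ (‖ξ v‖⁻¹ • ξ v)‖ ^ 2) *
        Real.exp (32 * dm * (k * ‖F v‖) ^ 2 - hs (B v) / 8) ∧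
      ‖fderiv ℝ τ (‖ξ v‖⁻¹ • ξ v)‖ ^ 2 ≤ 1 - 1 / (2 * K ^ 2) ∧
      ‖fderiv ℝ τ (‖ξ v‖⁻¹ • ξ v)‖ ^ 2 ≤ 2 * K ^ 2 * ‖F v‖ ^ 2 ∧
      hs (fderiv ℝ G (‖ξ v‖⁻¹ • ξ v)) ≤ 4 * K ^ 2 * hs (B v) := by
  obtain ⟨-, -, -, dA, bB⟩ := h.gd v g hv
  obtain ⟨-, -, -, p⟩ := h.pull k0 k1 g hv
  obtain ⟨s0, s1⟩ := h.small k0 k1 hv
  obtain ⟨a1, a2, a3, a4⟩ := al (A v) (fderiv ℝ ξ v) (B v) (fderiv ℝ τ (‖ξ v‖⁻¹ • ξ v)) K
    (k * ‖F v‖) ‖F v‖ hK s0 s1 bB dA fun e => by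
      rw [(p e).1]
      exact (h.der v g hv e).2
  refine ⟨a1, a2, a3, (a4 _ fun e => ?_).2⟩
  rw [(p e).2, norm_smul, norm_norm]
  exact mul_le_mul (h.pt v hv).2.2 (h.der v g hv e).1 (norm_nonneg _) (by linarith)

theorem nu_pos (A B : V → V →L[ℝ] V) (v : V) : 0 ≤ nu A B v := by
  unfold nu
  positivity

theorem sNU_of (kh : KH) (al : SALG) : SNU := by
  intro K k t τ ξ X F G A B Gs hK k0 k1 h
  refine ⟨h.mν, (hasFiniteIntegral_iff_ofReal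
    (.of_forall fun v : Metric.sphere (0 : V) 1 => nu_pos A B v)).2 ?_⟩
  have c := h.cov (fun _ => ENNReal.ofReal (K ^ dm * Real.exp dm)) measurable_const
  refine lt_of_le_of_lt (le_trans (lintegral_mono_ae ?_) c) ?_
  · filter_upwards [h.ae] with v g
    have hv : ‖(v : V)‖ = 1 := by simp
    have hp := norm_pos_iff.2 (h.lX v (ne0 hv)).1
    obtain ⟨s0, s1⟩ := h.small k0 k1 hv
    rw [← ENNReal.ofReal_mul (by positivity)]
    refine ENNReal.ofReal_le_ofReal ((h.alg al hK k0 k1 g hv).1.trans ?_)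
    have e1 : √(1 - ‖fderiv ℝ τ (‖ξ v‖⁻¹ • ξ v)‖ ^ 2) ≤ 1 :=
      Real.sqrt_le_one.2 (by nlinarith [sq_nonneg ‖fderiv ℝ τ (‖ξ v‖⁻¹ • ξ v)‖])
    have e2 : Real.exp (32 * dm * (k * ‖F v‖) ^ 2 - hs (B v) / 8) ≤ Real.exp dm := by
      refine Real.exp_le_exp.2 ?_
      have n0 : (0 : ℝ) ≤ dm := Nat.cast_nonneg _
      have : (k * ‖F v‖) ^ 2 ≤ 1 / 64 := by nlinarith
      nlinarith [kh.nonneg (B v), mul_le_mul_of_nonneg_left this n0]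
    have e3 : 1 ≤ K ^ dm / ‖ξ v‖ ^ dm :=
      (one_le_div (by positivity)).2 (pow_le_pow_left₀ hp.le (h.pt v hv).2.2 _)
    calc _ ≤ |(fderiv ℝ ξ v).det| * (K ^ dm / ‖ξ v‖ ^ dm) * Real.exp dm := by
          gcongr
          exact e1.trans e3
      _ = _ := by ring
  · rw [lintegral_const]
    exact ENNReal.mul_lt_top ENNReal.ofReal_lt_top (measure_lt_top _ _)

theorem DatZ.sg (h : DatZ K k t τ ξ X F G A B Gs) (hK : 1 ≤ K) {x : ℝ} (hx : x = 1 / (4 * K ^ 2)) :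
    Integrable (fun a : Metric.sphere (0 : V) 1 =>
      √(1 - (1 + x) * ‖fderiv ℝ τ a‖ ^ 2) / √(1 - (1 + x) * τ a ^ 2) ^ dm) sm ∧
    sph (fun a => √(1 - (1 + x) * ‖fderiv ℝ τ a‖ ^ 2) / √(1 - (1 + x) * τ a ^ 2) ^ dm) ≤
      sph fun _ => 1 := by
  obtain ⟨s, l, hs⟩ := h.lτ
  have x0 : 0 < x := by rw [hx]; positivity
  have q : √(1 + x) ^ 2 = 1 + x := Real.sq_sqrt (by linarith)
  have l2 : LipschitzWith (‖√(1 + x)‖₊ * s) (√(1 + x) • τ) :=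
    (lipschitzWith_smul √(1 + x)).comp l
  have := CY.sgl l2 (by
    rw [← hx] at hs
    refine lt_of_pow_lt_pow_left₀ 2 zero_le_one ?_
    rw [NNReal.coe_mul, coe_nnnorm, mul_pow, Real.norm_eq_abs, sq_abs, q]
    nlinarith) fun r a => by simp only [Pi.smul_apply, smul_eq_mul, h.hτ]; ring
  simpa only [fderiv_const_smul_field, Pi.smul_apply, norm_smul, mul_pow, Real.norm_eq_abs, sq_abs,
    q, smul_eq_mul] using this

theorem sGIBZ_of (kh : KH) (al : SALG) (ho : SHOL) : SGIBZ := by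
  intro K k μ c t τ ξ X F G A B Gs w hK k0 k1 hμ c0 c1 h mG i2 s2 cen
  have iν := sNU_of kh al K k t τ ξ X F G A B Gs hK k0 k1 h
  obtain ⟨x, hx⟩ : ∃ x : ℝ, x = 1 / (4 * K ^ 2) := ⟨_, rfl⟩
  obtain ⟨i1, s1⟩ := h.sg hK hx
  have K2 : 1 ≤ K ^ 2 := one_le_pow₀ hK
  have K4 : 1 ≤ K ^ 4 := one_le_pow₀ hK
  have x0 : 0 < x := by rw [hx]; positivity
  have x1 : x * (4 * K ^ 2) = 1 := by rw [hx]; field_simp
  obtain ⟨l, hl⟩ : ∃ l : ℝ, l = 32 * dm * k ^ 2 + 8 * K ^ 4 := ⟨_, rfl⟩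
  have l0 : 0 ≤ l := by rw [hl]; positivity
  have cF : Continuous fun v : Metric.sphere (0 : V) 1 => F v :=
    h.cF.comp_continuous continuous_subtype_val fun v => by simp
  have ib : ∀ {f : Metric.sphere (0 : V) 1 → ℝ}, Continuous f →
      Integrable (fun v : Metric.sphere (0 : V) 1 => nu A B v * f v) sm := fun {f} hf => by
    obtain ⟨C, hC⟩ := isCompact_univ.exists_bound_of_continuousOn hf.continuousOn
    exact iν.mul_bdd hf.aestronglyMeasurable (.of_forall fun v => hC v trivial)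
  have f1 : Continuous fun v : Metric.sphere (0 : V) 1 => ‖F v‖ ^ 2 := cF.norm.pow 2
  have f2 : Continuous fun v : Metric.sphere (0 : V) 1 => ‖F v - w‖ ^ 2 :=
    (cF.sub continuous_const).norm.pow 2
  have j1 := ib f1
  have j2 := ib f2
  have j3 := ib (f := fun v => Real.exp ((l + 8 * K ^ 4) * ‖F v - w‖ ^ 2 - l * ‖F v‖ ^ 2))
    ((continuous_const.mul f2).sub (continuous_const.mul f1)).rexp
  obtain ⟨Φ, hΦ⟩ : ∃ Φ : V → ℝ, Φ = fun u => 1 / (1 + x) * (√(1 - (1 + x) * ‖fderiv ℝ τ u‖ ^ 2) /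
      √(1 - (1 + x) * τ u ^ 2) ^ dm) +
      x / (1 + x) * Real.exp (μ * dm * ‖G u - w‖ ^ 2 - c * hs (fderiv ℝ G u)) := ⟨_, rfl⟩
  have iΦ : Integrable (fun u : Metric.sphere (0 : V) 1 => Φ u) sm := by
    rw [hΦ]
    exact (i1.const_mul _).add (i2.const_mul _)
  have Φ0 : ∀ u, 0 ≤ Φ u := fun u => by rw [hΦ]; positivity
  have mΦ : Measurable Φ := by
    obtain ⟨s, ls, -⟩ := h.lτ
    have m1 := ls.continuous.measurable
    have m2 := (measurable_fderiv ℝ τ).norm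
    have m3 := kh.cont.measurable.comp (measurable_fderiv ℝ G)
    rw [hΦ]
    exact ((((measurable_const.sub ((m2.pow_const 2).const_mul _)).sqrt).div
      ((measurable_const.sub ((m1.pow_const 2).const_mul _)).sqrt.pow_const _)).const_mul _).add
      ((((((mG.sub_const w).norm.pow_const 2).const_mul _).sub (m3.const_mul c)).exp).const_mul _)
  have sΦ : sph Φ ≤ sph fun _ => 1 := by
    have e : sph Φ = 1 / (1 + x) * sph (fun a => √(1 - (1 + x) * ‖fderiv ℝ τ a‖ ^ 2) /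
        √(1 - (1 + x) * τ a ^ 2) ^ dm) + x / (1 + x) *
        sph fun u => Real.exp (μ * dm * ‖G u - w‖ ^ 2 - c * hs (fderiv ℝ G u)) := by
      rw [hΦ, ← sph_mul, ← sph_mul]
      exact integral_add (i1.const_mul _) (i2.const_mul _)
    have e2 : 1 / (1 + x) + x / (1 + x) = 1 := by field_simp
    have p1 := mul_le_mul_of_nonneg_left s1 (by positivity : 0 ≤ 1 / (1 + x))
    have p2 := mul_le_mul_of_nonneg_left s2 (by positivity : 0 ≤ x / (1 + x))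
    rw [e]
    refine (add_le_add p1 p2).trans_eq ?_
    rw [← add_mul, e2, one_mul]
  have pt : ∀ v ∈ Gs, ‖v‖ = 1 →
      nu A B v * Real.exp ((l + 8 * K ^ 4) * ‖F v - w‖ ^ 2 - l * ‖F v‖ ^ 2) ≤
        |(fderiv ℝ ξ v).det| / ‖ξ v‖ ^ dm * Φ (‖ξ v‖⁻¹ • ξ v) := fun v g hv => by
    obtain ⟨a1, a2, a3, a4⟩ := h.alg al hK k0 k1 g hv
    obtain ⟨p1, p2, p3, -⟩ := h.pull k0 k1 g hv
    have hp := norm_pos_iff.2 (h.lX v (ne0 hv)).1
    have q0 := kh.nonneg (B v)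
    have y := ho x ‖fderiv ℝ τ (‖ξ v‖⁻¹ • ξ v)‖ (τ (‖ξ v‖⁻¹ • ξ v)) (8 * K ^ 4 * ‖F v‖ ^ 2)
      ((l + 8 * K ^ 4) * ‖F v - w‖ ^ 2) (hs (B v) / 8) x0 (by nlinarith)
      (by rw [← sq_abs]; exact pow_le_pow_left₀ (abs_nonneg _) p1 2)
      (a2.trans_eq (by rw [hx]; field_simp; ring))
      (a3.trans_eq (by rw [hx]; field_simp; ring)) (by positivity)
    have y2 : Real.exp ((1 + x) / x * ((l + 8 * K ^ 4) * ‖F v - w‖ ^ 2) - hs (B v) / 8) ≤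
        Real.exp (μ * dm * ‖G (‖ξ v‖⁻¹ • ξ v) - w‖ ^ 2 -
          c * hs (fderiv ℝ G (‖ξ v‖⁻¹ • ξ v))) := by
      refine Real.exp_le_exp.2 (sub_le_sub ?_ ?_)
      · have e : (1 + x) / x = 1 + 4 * K ^ 2 := by rw [hx]; field_simp; ring
        rw [p2, e, ← mul_assoc]
        refine mul_le_mul_of_nonneg_right (le_of_eq_of_le ?_ hμ) (sq_nonneg _)
        rw [hl]
        ring
      · refine (mul_le_mul c1 a4 (kh.nonneg _) (by positivity)).trans_eq ?_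
        field_simp
        ring
    have y3 := y.trans (add_le_add_right
      (mul_le_mul_of_nonneg_left y2 (by positivity : 0 ≤ x / (1 + x))) _)
    rw [hΦ]
    refine le_trans ?_ (mul_le_mul_of_nonneg_left y3 (by positivity))
    refine (mul_le_mul_of_nonneg_right a1 (Real.exp_pos _).le).trans_eq ?_
    rw [p3, mul_assoc, ← Real.exp_add, inv_pow, show 32 * dm * (k * ‖F v‖) ^ 2 - hs (B v) / 8 +
      ((l + 8 * K ^ 4) * ‖F v - w‖ ^ 2 - l * ‖F v‖ ^ 2) = (l + 8 * K ^ 4) * ‖F v - w‖ ^ 2 -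
        8 * K ^ 4 * ‖F v‖ ^ 2 - hs (B v) / 8 by rw [hl]; ring]
    field_simp
  have main : ∫ v : Metric.sphere (0 : V) 1, nu A B v *
      Real.exp ((l + 8 * K ^ 4) * ‖F v - w‖ ^ 2 - l * ‖F v‖ ^ 2) ∂sm ≤ sph Φ := by
    unfold sph
    rw [← ENNReal.ofReal_le_ofReal_iff (integral_nonneg fun u : Metric.sphere (0 : V) 1 => Φ0 u),
      ofReal_integral_eq_lintegral_ofReal iΦ (.of_forall fun u => Φ0 u),
      ofReal_integral_eq_lintegral_ofReal j3 (.of_forall fun v =>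
        mul_nonneg (nu_pos A B v) (Real.exp_pos _).le)]
    refine le_trans (lintegral_mono_ae ?_) (h.cov _ mΦ.ennreal_ofReal)
    filter_upwards [h.ae] with v g
    rw [← ENNReal.ofReal_mul (by positivity)]
    exact ENNReal.ofReal_le_ofReal (pt v g (by simp))
  have low := integral_mono ((iν.add (j2.const_mul (l + 8 * K ^ 4))).sub (j1.const_mul l)) j3
    fun v => by
      have := mul_le_mul_of_nonneg_left (Real.add_one_le_exp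
        ((l + 8 * K ^ 4) * ‖F v - w‖ ^ 2 - l * ‖F v‖ ^ 2)) (nu_pos A B v)
      simp only [Pi.add_apply, Pi.sub_apply]
      linarith
  rw [integral_sub' (iν.add (j2.const_mul _)) (j1.const_mul _),
    integral_add' iν (j2.const_mul _), integral_const_mul, integral_const_mul] at low
  have p0 : 0 ≤ sph fun v => nu A B v * ‖F v‖ ^ 2 :=
    integral_nonneg fun v => mul_nonneg (nu_pos A B v) (sq_nonneg _)
  have p1 := mul_le_mul_of_nonneg_left cen (by positivity : 0 ≤ l + 8 * K ^ 4)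
  have p2 := mul_le_mul_of_nonneg_right K4 p0
  unfold sph at *
  linarith

end Pool.Agent.MP_3ee8cb_gt.CYG
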