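import Pool.Agent.MP_3ee8cb_gt.DF.Spec

/-! The fibre inequality for a front that is differentiable almost everywhere: the data. -/

namespace Pool.Agent.MP_3ee8cb_gt.CYG

open DN DF Set MeasureTheory
open scoped ENNReal NNReal

noncomputable section

variable [Dim]

/-- The measure on the unit sphere. -/
abbrev sm : Measure (Metric.sphere (0 : V) 1) := (volume : Measure V).toSphere

/-- The weight. -/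
def nu (A B : V → V →L[ℝ] V) (v : V) : ℝ := |(A v).det| * Real.exp (-(hs (B v) / 4))

/-- A front in de Sitter space with a global chart `X`, and a set `Gs` of good directions. -/
structure DatZ (K k : ℝ) (t τ : V → ℝ) (ξ X F G : V → V) (A B : V → V →L[ℝ] V) (Gs : Set V) :
    Prop where
  cX : ContinuousOn X {u | u ≠ 0}
  rX : ∀ u, u ≠ 0 → ξ (X u) = u
  lX : ∀ v, v ≠ 0 → ξ v ≠ 0 ∧ X (ξ v) = v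
  eτ : ∀ u, u ≠ 0 → τ u = t (X u)
  eG : ∀ u, u ≠ 0 → G u = F (X u)
  hτ : ∀ (r : ℝ) u, τ (r • u) = r * τ u
  hG : ∀ (r : ℝ) u, r ≠ 0 → u ≠ 0 → G (r • u) = G u
  lτ : ∃ s : ℝ≥0, LipschitzWith s τ ∧ (s : ℝ) ^ 2 ≤ 1 - 1 / (4 * K ^ 2)
  cF : ContinuousOn F {v | ‖v‖ = 1}
  pt : ∀ v, ‖v‖ = 1 → ‖ξ v‖ ^ 2 - t v ^ 2 = 1 ∧ ‖F v‖ ≤ 3 / 2 ∧ ‖ξ v‖ ≤ K
  ae : ∀ᵐ v : Metric.sphere (0 : V) 1 ∂sm, (v : V) ∈ Gs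
  mν : AEStronglyMeasurable (fun v : Metric.sphere (0 : V) 1 => nu A B v) sm
  gd : ∀ v ∈ Gs, ‖v‖ = 1 → DifferentiableAt ℝ ξ v ∧ DifferentiableAt ℝ t v ∧
    DifferentiableAt ℝ F v ∧ (A v).det ≠ 0 ∧ ‖B v‖ ≤ 1
  der : ∀ v ∈ Gs, ‖v‖ = 1 → ∀ e, ‖fderiv ℝ F v e‖ ≤ ‖B v (A v e)‖ ∧
    ‖fderiv ℝ ξ v e‖ ≤ K * ‖A v e‖ ∧ |fderiv ℝ t v e| ≤ K * ‖F v‖ * ‖A v e‖ ∧
    ‖A v e‖ ^ 2 - k * ‖F v‖ * ‖A v e‖ * ‖B v (A v e)‖ ≤ ‖fderiv ℝ ξ v e‖ ^ 2 - fderiv ℝ t v e ^ 2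
  cov : ∀ f : V → ℝ≥0∞, Measurable f →
    ∫⁻ v : Metric.sphere (0 : V) 1, ENNReal.ofReal (|(fderiv ℝ ξ v).det| / ‖ξ v‖ ^ dm) *
      f (‖ξ v‖⁻¹ • ξ v) ∂sm ≤ ∫⁻ u : Metric.sphere (0 : V) 1, f u ∂sm

/-- The weight is integrable. -/
def SNU : Prop := ∀ (K k : ℝ) t τ ξ X F G A B Gs, 1 ≤ K → 0 ≤ k → k ≤ 1 / 12 →
  DatZ K k t τ ξ X F G A B Gs → Integrable (fun v : Metric.sphere (0 : V) 1 => nu A B v) sm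

/-- The fibre inequality. -/
def SGIBZ : Prop := ∀ (K k μ c : ℝ) t τ ξ X F G A B Gs (w : V), 1 ≤ K → 0 ≤ k → k ≤ 1 / 12 →
  (1 + 4 * K ^ 2) * (32 * dm * k ^ 2 + 16 * K ^ 4) ≤ μ * dm → 0 ≤ c → c ≤ 1 / (32 * K ^ 2) →
  DatZ K k t τ ξ X F G A B Gs → Measurable G →
  Integrable (fun u : Metric.sphere (0 : V) 1 =>
    Real.exp (μ * dm * ‖G u - w‖ ^ 2 - c * hs (fderiv ℝ G u))) sm →
  sph (fun u => Real.exp (μ * dm * ‖G u - w‖ ^ 2 - c * hs (fderiv ℝ G u))) ≤ sph (fun _ => 1) →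
  sph (fun v => nu A B v * ‖F v‖ ^ 2) ≤ sph (fun v => nu A B v * ‖F v - w‖ ^ 2) →
  sph (nu A B) + sph (fun v => nu A B v * ‖F v‖ ^ 2) ≤ sph fun _ => 1

end

end Pool.Agent.MP_3ee8cb_gt.CYG
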